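import Pool.Agent.Q61.AD.Stm

/-!
# Advection-diffusion (project AD of helper61): elementary inequalities for the parameters (AD-24)
-/

set_option autoImplicit false

namespace Pool.Agent.Q13.AD

open Pool.Agent.Q61.AD

lemma del_pos (m : ℕ) : 0 < del m := by
  unfold del
  positivity

lemma del_le (m : ℕ) : del m ≤ 1 / 6400 := by
  unfold del
  have h1 : (1 : ℝ) ≤ ((m : ℝ) + 1) ^ 4 := one_le_pow₀ (by linarith [Nat.cast_nonneg (α := ℝ) m])
  exact one_div_le_one_div_of_le (by norm_num) (by linarith)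

lemma del_anti (m : ℕ) : del (m + 1) ≤ del m := by
  unfold del
  refine one_div_le_one_div_of_le (by positivity) ?_
  have h1 : ((m : ℝ) + 1) ^ 4 ≤ ((m : ℝ) + 1 + 1) ^ 4 :=
    pow_le_pow_left₀ (by positivity) (by linarith) 4
  push_cast
  linarith

lemma sgk_pos (k m : ℕ) : 0 < sgk k m := by
  unfold sgk
  have := del_pos m
  positivity

lemma sgk_succ (k m : ℕ) : sgk k (m + 1) ≤ sgk k m / 4 := by
  unfold sgk
  have h1 : del (m + 1) ^ 4 ≤ del m ^ 4 := pow_le_pow_left₀ (del_pos _).le (del_anti m) 4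
  have h2 : (4 : ℝ) ^ (k + (m + 1)) = 4 ^ (k + m) * 4 := by
    rw [← add_assoc, pow_succ]
  rw [h2, div_div]
  exact div_le_div_of_nonneg_right h1 (by positivity)

lemma sgk_le (k m : ℕ) : sgk k m ≤ 1 / 4 ^ (k + m) := by
  unfold sgk
  refine div_le_div_of_nonneg_right ?_ (by positivity)
  exact pow_le_one₀ (del_pos m).le ((del_le m).trans (by norm_num))

lemma tau_ge (k m : ℕ) : 3 / 8 * sgk k m ≤ tau k m := by
  unfold tau
  have := sgk_succ k m
  linarith

lemma tau_pos (k m : ℕ) : 0 < tau k m := by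
  have h1 := tau_ge k m
  have h2 := sgk_pos k m
  linarith

/-- the parameters -/
theorem b0 : S_B0 := by
  refine ⟨fun m => ⟨del_pos m, del_le m⟩, fun k m => ⟨sgk_pos k m, sgk_succ k m, sgk_le k m,
    tau_pos k m, tau_ge k m, ?_, ?_⟩, fun R k hR => ⟨?_, ?_⟩⟩
  · have h1 : del m ^ 4 / (2 * 4 ^ (k + m)) = sgk k m / 2 := by
      unfold sgk
      rw [div_div, mul_comm]
    rw [h1]
    unfold tau
    have := sgk_pos k (m + 1)
    linarith
  · unfold spd
    have := tau_pos k m
    positivity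
  · unfold st
    have : 0 < R := by linarith
    positivity
  · have h0 : (0 : ℝ) < 4 ^ (k + 1) := by positivity
    have h1 : st R k = 4 * (R / 4 ^ (k + 1)) := by
      unfold st
      rw [pow_succ]
      field_simp
    have h2 : sgk (k + 1) 1 ≤ 1 / 4 ^ (k + 1) := by
      refine (sgk_le (k + 1) 1).trans ?_
      exact one_div_le_one_div_of_le h0 (pow_le_pow_right₀ (by norm_num) (by omega))
    have h3 : 4 / 4 ^ (k + 1) ≤ R / 4 ^ (k + 1) := div_le_div_of_nonneg_right hR h0.le
    have h4 : (4 : ℝ) / 4 ^ (k + 1) = 4 * (1 / 4 ^ (k + 1)) := by ring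
    have h5 : (8 : ℝ) / 4 ^ (k + 1) = 8 * (1 / 4 ^ (k + 1)) := by ring
    have h6 : 0 < 1 / (4 : ℝ) ^ (k + 1) := by positivity
    rw [h1, h5]
    unfold st
    rw [h4] at h3
    linarith

end Pool.Agent.Q13.AD
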