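import Pool.Agent.Q61.AD.Stm

/-!
# Advection-diffusion (project AD of helper61): the drift on the stages (AD-25)
-/

set_option autoImplicit false

namespace Pool.Agent.Q13.AD

open Pool.Agent.Q61.AD Set

/-- the interval of stage `m` of block `k` -/
def II (R : ℝ) (k m : ℕ) : Set ℝ := Ico (st R k + sgk k (m + 1)) (st R k + sgk k m)

section

variable (h : S_B0)

include h

lemma sgk_anti {k m n : ℕ} (hmn : m ≤ n) : sgk k n ≤ sgk k m := by
  induction n, hmn using Nat.le_induction with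
  | base => exact le_rfl
  | succ n _ ih =>
    have h1 := (h.2.1 k n).2.1
    have h2 := (h.2.1 k n).1
    linarith

omit h in
lemma st_anti {R : ℝ} (hR : 4 ≤ R) {k l : ℕ} (hkl : k ≤ l) : st R l ≤ st R k := by
  unfold st
  exact div_le_div_of_nonneg_left (by linarith) (by positivity)
    (pow_le_pow_right₀ (by norm_num) hkl)

/-- block `k + 1` ends before block `k` starts -/
lemma blk_lt {R : ℝ} (hR : 4 ≤ R) (k : ℕ) : st R (k + 1) + sgk (k + 1) 1 < st R k := by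
  have h1 := (h.2.2 R k hR).2
  have h2 : (0 : ℝ) < 8 / 4 ^ (k + 1) := by positivity
  linarith

lemma mem_blk {R : ℝ} {k m : ℕ} (hm : 1 ≤ m) {t : ℝ} (ht : t ∈ II R k m) :
    st R k ≤ t ∧ t < st R k + sgk k 1 := by
  have h1 := (h.2.1 k (m + 1)).1
  have h2 := sgk_anti h (k := k) hm
  exact ⟨by linarith [ht.1], by linarith [ht.2]⟩

lemma blk_eq {R : ℝ} (hR : 4 ≤ R) {k k' : ℕ} {t : ℝ} (h1 : st R k ≤ t)
    (h2 : t < st R k + sgk k 1) (h3 : st R k' ≤ t) (h4 : t < st R k' + sgk k' 1) : k = k' := by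
  rcases lt_trichotomy k k' with hk | hk | hk
  · exfalso
    obtain ⟨l, rfl⟩ : ∃ l, k' = l + 1 := ⟨k' - 1, by omega⟩
    have h5 := blk_lt h hR l
    have h6 := st_anti hR (show k ≤ l by omega)
    linarith
  · exact hk
  · exfalso
    obtain ⟨l, rfl⟩ : ∃ l, k = l + 1 := ⟨k - 1, by omega⟩
    have h5 := blk_lt h hR l
    have h6 := st_anti hR (show k' ≤ l by omega)
    linarith

lemma II_eq {R : ℝ} (hR : 4 ≤ R) {k m k' m' : ℕ} (hm : 1 ≤ m) (hm' : 1 ≤ m') {t : ℝ}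
    (ht : t ∈ II R k m) (ht' : t ∈ II R k' m') : k = k' ∧ m = m' := by
  obtain ⟨h1, h2⟩ := mem_blk h hm ht
  obtain ⟨h3, h4⟩ := mem_blk h hm' ht'
  have hk := blk_eq h hR h1 h2 h3 h4
  subst hk
  refine ⟨rfl, ?_⟩
  rcases lt_trichotomy m m' with hk | hk | hk
  · exfalso
    have h5 := sgk_anti h (k := k) (show m + 1 ≤ m' by omega)
    linarith [ht.1, ht'.2]
  · exact hk
  · exfalso
    have h5 := sgk_anti h (k := k) (show m' + 1 ≤ m by omega)
    linarith [ht.2, ht'.1]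

lemma tau_le (k m : ℕ) : sgk k (m + 1) + tau k m < sgk k m := by
  have h1 := (h.2.1 k m).2.1
  have h2 := (h.2.1 k m).1
  unfold tau
  linarith

lemma pce_zero {R : ℝ} {k m : ℕ} {t : ℝ} (ht : t ∉ II R k m) (x : P) : pce R k m t x = 0 := by
  have h1 := tau_le h k m
  have h2 := (h.2.1 k m).2.2.2.1
  have h3 : ¬ (st R k + sgk k (m + 1) ≤ t ∧ t < st R k + sgk k (m + 1) + tau k m) := by
    rintro ⟨a, b⟩
    exact ht ⟨a, by linarith⟩
  have h4 : ¬ (st R k + sgk k (m + 1) + tau k m ≤ t ∧ t < st R k + sgk k m) := by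
    rintro ⟨a, b⟩
    exact ht ⟨by linarith, b⟩
  unfold pce
  rw [if_neg h3, if_neg h4]

lemma fb_eq {R : ℝ} (hR : 4 ≤ R) {k m : ℕ} (hk : 1 ≤ k) (hm : 1 ≤ m) {t : ℝ}
    (ht : t ∈ II R k m) (x : P) : fb R t x = pce R k m t x := by
  unfold fb
  rw [tsum_eq_single ((k - 1, m - 1) : ℕ × ℕ)]
  · show pce R (k - 1 + 1) (m - 1 + 1) t x = _
    rw [Nat.sub_add_cancel hk, Nat.sub_add_cancel hm]
  · rintro ⟨a, b⟩ hab
    refine pce_zero h (fun h1 => hab ?_) x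
    obtain ⟨h2, h3⟩ := II_eq h hR (show 1 ≤ b + 1 by omega) hm h1 ht
    ext <;> simp <;> omega

lemma bt_eq {R : ℝ} (hR : 4 ≤ R) {k m : ℕ} (hk : 1 ≤ k) (hm : 1 ≤ m) {t : ℝ}
    (ht : t ∈ II R k m) : bt R t = 2 * spd k m := by
  unfold bt
  rw [tsum_eq_single ((k - 1, m - 1) : ℕ × ℕ)]
  · show (if st R (k - 1 + 1) + sgk (k - 1 + 1) (m - 1 + 2) ≤ t ∧
      t < st R (k - 1 + 1) + sgk (k - 1 + 1) (m - 1 + 1) then
        2 * spd (k - 1 + 1) (m - 1 + 1) else 0) = _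
    rw [Nat.sub_add_cancel hk, Nat.sub_add_cancel hm, show m - 1 + 2 = m + 1 by omega,
      if_pos ⟨ht.1, ht.2⟩]
  · rintro ⟨a, b⟩ hab
    refine if_neg fun h1 => hab ?_
    have h4 : t ∈ II R (a + 1) (b + 1) := h1
    obtain ⟨h2, h3⟩ := II_eq h hR (show 1 ≤ b + 1 by omega) hm h4 ht
    ext <;> simp <;> omega

lemma fb_zero {R : ℝ} {t : ℝ} (ht : ∀ k m : ℕ, 1 ≤ k → 1 ≤ m → t ∉ II R k m) (x : P) :
    fb R t x = 0 := by
  unfold fb
  rw [show (fun i : ℕ × ℕ => pce R (i.1 + 1) (i.2 + 1) t x) = fun _ => 0 from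
    funext fun i => pce_zero h (ht _ _ (by omega) (by omega)) x]
  exact tsum_zero

omit h in
lemma bt_zero {R : ℝ} {t : ℝ} (ht : ∀ k m : ℕ, 1 ≤ k → 1 ≤ m → t ∉ II R k m) :
    bt R t = 0 := by
  unfold bt
  rw [show (fun i : ℕ × ℕ => if st R (i.1 + 1) + sgk (i.1 + 1) (i.2 + 2) ≤ t ∧
    t < st R (i.1 + 1) + sgk (i.1 + 1) (i.2 + 1) then 2 * spd (i.1 + 1) (i.2 + 1) else 0) =
    fun _ => 0 from funext fun i => if_neg fun h1 => ht (i.1 + 1) (i.2 + 1) (by omega) (by omega) h1]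
  exact tsum_zero

/-- the drift on the stages -/
theorem b1 : S_B1 := by
  intro R hR
  refine ⟨fun k m hk hm => ⟨fun t ht x => ?_, fun t ht x => ?_, fun t ht => bt_eq h hR hk hm ht⟩,
    fun k hk t ht => ?_, fun t ht => ⟨fb_zero h ht, bt_zero ht⟩⟩
  · have h1 := tau_le h k m
    rw [fb_eq h hR hk hm ⟨ht.1, by linarith [ht.2]⟩]
    unfold pce
    rw [if_pos ⟨ht.1, ht.2⟩]
  · have h2 := (h.2.1 k m).2.2.2.1
    rw [fb_eq h hR hk hm ⟨by linarith [ht.1], ht.2⟩]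
    unfold pce
    rw [if_neg (fun h3 => absurd h3.2 (not_lt.2 ht.1)), if_pos ⟨ht.1, ht.2⟩]
  · have h0 : ∀ k' m' : ℕ, 1 ≤ k' → 1 ≤ m' → t ∉ II R k' m' := by
      intro k' m' hk' hm' h1
      obtain ⟨h2, h3⟩ := mem_blk h hm' h1
      rcases lt_trichotomy k k' with h4 | h4 | h4
      · obtain ⟨l, rfl⟩ : ∃ l, k' = l + 1 := ⟨k' - 1, by omega⟩
        have h5 := blk_lt h hR l
        have h6 := st_anti hR (show k ≤ l by omega)
        have h7 := (h.2.1 k 1).1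
        linarith [ht.1]
      · subst h4
        linarith [ht.1]
      · have h6 := st_anti hR (show k' ≤ k - 1 by omega)
        linarith [ht.2]
    exact ⟨fb_zero h h0, bt_zero h0⟩

end

end Pool.Agent.Q13.AD
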