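import Pool.Agent.Q13.AD.B1

/-!
# Advection-diffusion (project AD of helper61): measurability and bound of the drift (AD-26)
-/

set_option autoImplicit false

namespace Pool.Agent.Q13.AD

open Pool.Agent.Q61.AD Set MeasureTheory Filter Topology

lemma meas_vh (j : ℕ) (V : ℝ) : Measurable (vh j V) := by
  unfold vh
  have h1 : Measurable chi := Measurable.of_discrete
  have h2 : Measurable (fun x : P => ⌊2 ^ j * x.2⌋) :=
    Int.measurable_floor.comp (measurable_snd.const_mul _)
  exact ((h1.comp h2).const_mul V).prodMk measurable_const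

lemma meas_vv (j : ℕ) (V : ℝ) : Measurable (vv j V) := by
  unfold vv
  have h1 : Measurable chi := Measurable.of_discrete
  have h2 : Measurable (fun x : P => ⌊2 ^ j * x.1⌋) :=
    Int.measurable_floor.comp (measurable_fst.const_mul _)
  exact measurable_const.prodMk ((h1.comp h2).const_mul V)

lemma chi_abs (n : ℤ) : |chi n| ≤ 1 := by
  unfold chi
  split_ifs <;> simp

lemma norm_vh {V : ℝ} (hV : 0 ≤ V) (j : ℕ) (x : P) : ‖vh j V x‖ ≤ V := by
  unfold vh
  rw [Prod.norm_def]
  refine max_le ?_ (by simpa using hV)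
  show ‖V * chi ⌊2 ^ j * x.2⌋‖ ≤ V
  rw [norm_mul, Real.norm_eq_abs, Real.norm_eq_abs, abs_of_nonneg hV]
  exact mul_le_of_le_one_right hV (chi_abs _)

lemma norm_vv {V : ℝ} (hV : 0 ≤ V) (j : ℕ) (x : P) : ‖vv j V x‖ ≤ V := by
  unfold vv
  rw [Prod.norm_def]
  refine max_le (by simpa using hV) ?_
  show ‖V * chi ⌊2 ^ j * x.1⌋‖ ≤ V
  rw [norm_mul, Real.norm_eq_abs, Real.norm_eq_abs, abs_of_nonneg hV]
  exact mul_le_of_le_one_right hV (chi_abs _)

lemma meas_pce (R : ℝ) (k m : ℕ) : Measurable (fun q : ℝ × P => pce R k m q.1 q.2) := by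
  unfold pce
  refine Measurable.ite ?_ ((meas_vh _ _).comp measurable_snd)
    (Measurable.ite ?_ ((meas_vv _ _).comp measurable_snd) measurable_const)
  · exact (measurableSet_le measurable_const measurable_fst).inter
      (measurableSet_lt measurable_fst measurable_const)
  · exact (measurableSet_le measurable_const measurable_fst).inter
      (measurableSet_lt measurable_fst measurable_const)

section

variable (h : S_B0)

include h

lemma fin_supp {R : ℝ} (hR : 4 ≤ R) (t : ℝ) :
    {i : ℕ × ℕ | t ∈ II R (i.1 + 1) (i.2 + 1)}.Finite := by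
  refine Set.Subsingleton.finite fun a ha b hb => ?_
  obtain ⟨h2, h3⟩ := II_eq h hR (show 1 ≤ a.2 + 1 by omega) (show 1 ≤ b.2 + 1 by omega) ha hb
  ext <;> omega

lemma sum_pce {R : ℝ} (hR : 4 ≤ R) (t : ℝ) (x : P) :
    Summable (fun i : ℕ × ℕ => pce R (i.1 + 1) (i.2 + 1) t x) := by
  refine summable_of_finite_support ((fin_supp h hR t).subset fun i hi => ?_)
  by_contra h1
  exact hi (pce_zero h h1 x)

lemma sum_bt {R : ℝ} (hR : 4 ≤ R) (t : ℝ) :
    Summable (fun i : ℕ × ℕ => if st R (i.1 + 1) + sgk (i.1 + 1) (i.2 + 2) ≤ t ∧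
      t < st R (i.1 + 1) + sgk (i.1 + 1) (i.2 + 1) then 2 * spd (i.1 + 1) (i.2 + 1) else 0) := by
  refine summable_of_finite_support ((fin_supp h hR t).subset fun i hi => ?_)
  by_contra h1
  exact hi (if_neg fun h2 => h1 h2)

/-- the drift is measurable and bounded by `bt` -/
theorem b2a : S_B2a := by
  intro R hR
  have key : ∀ t, (∀ x, ‖fb R t x‖ ≤ bt R t) ∧ 0 ≤ bt R t := by
    intro t
    by_cases h1 : ∃ k m : ℕ, 1 ≤ k ∧ 1 ≤ m ∧ t ∈ II R k m
    · obtain ⟨k, m, hk, hm, ht⟩ := h1
      have hs : 0 < spd k m := (h.2.1 k m).2.2.2.2.2.2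
      rw [bt_eq h hR hk hm ht]
      refine ⟨fun x => ?_, by positivity⟩
      rw [fb_eq h hR hk hm ht]
      unfold pce
      split_ifs
      · exact (norm_vh hs.le _ x).trans (by linarith)
      · exact norm_vv (by positivity) _ x
      · rw [norm_zero]
        positivity
    · push Not at h1
      rw [bt_zero h1]
      refine ⟨fun x => ?_, le_rfl⟩
      rw [fb_zero h h1, norm_zero]
  refine ⟨?_, ?_, fun t x => (key t).1 x, fun t => (key t).2⟩
  · refine measurable_of_tendsto_metrizable' (f := fun (s : Finset (ℕ × ℕ)) (q : ℝ × P) =>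
      ∑ i ∈ s, pce R (i.1 + 1) (i.2 + 1) q.1 q.2) atTop
      (fun s => Finset.measurable_fun_sum s fun i _ => meas_pce _ _ _) ?_
    rw [tendsto_pi_nhds]
    exact fun q => (sum_pce h hR q.1 q.2).hasSum
  · refine measurable_of_tendsto_metrizable' (f := fun (s : Finset (ℕ × ℕ)) (t : ℝ) =>
      ∑ i ∈ s, (if st R (i.1 + 1) + sgk (i.1 + 1) (i.2 + 2) ≤ t ∧
      t < st R (i.1 + 1) + sgk (i.1 + 1) (i.2 + 1) then 2 * spd (i.1 + 1) (i.2 + 1) else 0)) atTop
      (fun s => Finset.measurable_fun_sum s fun i _ => ?_) ?_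
    · refine Measurable.ite ?_ measurable_const measurable_const
      exact (measurableSet_le measurable_const measurable_id).inter
        (measurableSet_lt measurable_id measurable_const)
    · rw [tendsto_pi_nhds]
      exact fun t => (sum_bt h hR t).hasSum

end

end Pool.Agent.Q13.AD
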