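import Pool.Agent.Q13.AD.B2a

/-!
# Advection-diffusion (project AD of helper61): integrability of the drift (AD-27, AD-28)
-/

set_option autoImplicit false

namespace Pool.Agent.Q13.AD

open Pool.Agent.Q61.AD Set MeasureTheory Filter Topology

section

variable (h : S_B0)

lemma meas_II (R : ℝ) (k m : ℕ) : MeasurableSet (II R k m) := measurableSet_Ico

lemma vol_II (R : ℝ) (k m : ℕ) : volume (II R k m) = ENNReal.ofReal (2 * tau k m) := by
  unfold II
  rw [Real.volume_Ico]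
  congr 1
  unfold tau
  ring

include h

lemma spd_tau (k m : ℕ) : 2 * spd k m * (2 * tau k m) = 4 / 2 ^ (k + m) := by
  have h1 := (h.2.1 k m).2.2.2.1
  unfold spd
  field_simp
  norm_num

lemma spd_le (k m : ℕ) :
    2 * spd k m ≤ 16 / 3 * 6400 ^ 4 * 2 ^ (k + m) * ((m : ℝ) + 1) ^ 16 := by
  have h1 := (h.2.1 k m).2.2.2.1
  have h2 := (h.2.1 k m).2.2.2.2.1
  have hs := (h.2.1 k m).1
  unfold spd
  have h3 : sgk k m = 1 / (6400 ^ 4 * ((m : ℝ) + 1) ^ 16 * 4 ^ (k + m)) := by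
    unfold sgk del
    field_simp
  have h4 : (4 : ℝ) ^ (k + m) = 2 ^ (k + m) * 2 ^ (k + m) := by
    rw [← mul_pow]
    norm_num
  have h5 : 3 / 8 * sgk k m * 2 ^ (k + m) ≤ 2 ^ (k + m) * tau k m := by
    have : (0 : ℝ) < 2 ^ (k + m) := by positivity
    nlinarith
  have h6 : 1 / (2 ^ (k + m) * tau k m) ≤ 1 / (3 / 8 * sgk k m * 2 ^ (k + m)) :=
    one_div_le_one_div_of_le (by positivity) h5
  refine (mul_le_mul_of_nonneg_left h6 (by norm_num)).trans (le_of_eq ?_)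
  rw [h3, h4]
  field_simp
  norm_num

/-- the terms of the series -/
lemma term_le {r : ℝ} (hr : 1 ≤ r) (hr' : r < 2) (k m : ℕ) :
    (2 * spd k m) ^ r * (2 * tau k m) ≤
      4 * (16 / 3 * 6400 ^ 4) * ((m : ℝ) + 1) ^ 16 * ((2 : ℝ) ^ (r - 1) / 2) ^ (k + m) := by
  have hs : 0 < 2 * spd k m := by
    have := (h.2.1 k m).2.2.2.2.2.2
    positivity
  have e1 : (2 * spd k m) ^ r = (2 * spd k m) ^ (r - 1) * (2 * spd k m) := by
    rw [Real.rpow_sub_one hs.ne', div_mul_cancel₀ _ hs.ne']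
  rw [e1, mul_assoc, spd_tau h]
  have h1 : (2 * spd k m) ^ (r - 1) ≤
      (16 / 3 * 6400 ^ 4) * ((2 : ℝ) ^ (r - 1)) ^ (k + m) * ((m : ℝ) + 1) ^ 16 := by
    refine (Real.rpow_le_rpow hs.le (spd_le h k m) (by linarith)).trans ?_
    rw [Real.mul_rpow (by positivity) (by positivity), Real.mul_rpow (by positivity) (by positivity)]
    have h2 : (16 / 3 * 6400 ^ 4 : ℝ) ^ (r - 1) ≤ 16 / 3 * 6400 ^ 4 := by
      refine (Real.rpow_le_rpow_of_exponent_le (by norm_num) (show r - 1 ≤ 1 by linarith)).trans ?_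
      rw [Real.rpow_one]
    have h3 : (((m : ℝ) + 1) ^ 16) ^ (r - 1) ≤ ((m : ℝ) + 1) ^ 16 := by
      refine (Real.rpow_le_rpow_of_exponent_le (one_le_pow₀ (by
        linarith [Nat.cast_nonneg (α := ℝ) m])) (show r - 1 ≤ 1 by linarith)).trans ?_
      rw [Real.rpow_one]
    have h4 : ((2 : ℝ) ^ (k + m)) ^ (r - 1) = ((2 : ℝ) ^ (r - 1)) ^ (k + m) := by
      rw [← Real.rpow_natCast, ← Real.rpow_natCast, ← Real.rpow_mul (by norm_num),
        ← Real.rpow_mul (by norm_num), mul_comm]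
    rw [h4]
    exact mul_le_mul (mul_le_mul_of_nonneg_right h2 (by positivity)) h3 (by positivity)
      (by positivity)
  refine (mul_le_mul_of_nonneg_right h1 (by positivity)).trans (le_of_eq ?_)
  rw [div_pow]
  ring

omit h in
lemma summ_prod {f g : ℕ → ℝ} (hf : Summable f) (hg : Summable g) (hf' : ∀ k, 0 ≤ f k)
    (hg' : ∀ k, 0 ≤ g k) : Summable (fun i : ℕ × ℕ => f i.1 * g i.2) :=
  hf.mul_of_nonneg hg hf' hg'

omit h in
lemma s1a {q : ℝ} (hq0 : 0 < q) (hq1 : q < 1) : Summable (fun k : ℕ => q ^ (k + 1)) :=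
    (summable_nat_add_iff 1).2 (summable_geometric_of_lt_one hq0.le hq1)

omit h in
lemma s2a {q : ℝ} (hq0 : 0 < q) (hq1 : q < 1) (n : ℕ) : Summable (fun m : ℕ => ((m + 2 : ℕ) : ℝ) ^ n * q ^ (m + 2)) :=
    (summable_nat_add_iff (f := fun m : ℕ => ((m : ℕ) : ℝ) ^ n * q ^ m) 2).2 (summable_pow_mul_geometric_of_norm_lt_one n
      (by rwa [Real.norm_eq_abs, abs_of_pos hq0]))

omit h in
lemma s3a {q C : ℝ} (hq0 : 0 < q) (hq1 : q < 1) (hC : 0 ≤ C) (n : ℕ) : 
   Summable (fun i : ℕ × ℕ => q ^ (i.1 + 1) * (C / q * (((i.2 + 2 : ℕ) : ℝ) ^ n * q ^ (i.2 + 2)))) :=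
  summ_prod (s1a hq0 hq1) ((s2a hq0 hq1 n).mul_left (C / q)) (fun k => by positivity) (fun m => by positivity)

omit h in
lemma summ_aux {q C : ℝ} (hq0 : 0 < q) (hq1 : q < 1) (hC : 0 ≤ C) (n : ℕ) :
    Summable (fun i : ℕ × ℕ => C * (((i.2 + 1 : ℕ) : ℝ) + 1) ^ n * q ^ (i.1 + 1 + (i.2 + 1))) := by
  refine (s3a hq0 hq1 hC n).congr fun i => ?_
  have e : (((i.2 + 1 : ℕ) : ℝ) + 1) = ((i.2 + 2 : ℕ) : ℝ) := by push_cast; ring
  rw [e, pow_add q (i.1 + 1), show i.2 + 2 = i.2 + 1 + 1 from rfl, pow_succ q (i.2 + 1)]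
  field_simp

lemma summ_term {r : ℝ} (hr : 1 ≤ r) (hr' : r < 2) :
    Summable (fun i : ℕ × ℕ => (2 * spd (i.1 + 1) (i.2 + 1)) ^ r * (2 * tau (i.1 + 1) (i.2 + 1))) := by
  obtain ⟨q, hq⟩ : ∃ q, q = (2 : ℝ) ^ (r - 1) / 2 := ⟨_, rfl⟩
  have hq0 : 0 < q := by rw [hq]; positivity
  have hq1 : q < 1 := by
    rw [hq, div_lt_one (by norm_num)]
    calc (2 : ℝ) ^ (r - 1) < 2 ^ (1 : ℝ) := Real.rpow_lt_rpow_of_exponent_lt (by norm_num)
          (by linarith)
      _ = 2 := Real.rpow_one 2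
  refine Summable.of_nonneg_of_le (fun i => ?_) (fun i => ?_) (summ_aux hq0 hq1
    (show (0 : ℝ) ≤ 4 * (16 / 3 * 6400 ^ 4) by positivity) 16)
  · have h1 := (h.2.1 (i.1 + 1) (i.2 + 1)).2.2.2.2.2.2
    have h2 := (h.2.1 (i.1 + 1) (i.2 + 1)).2.2.2.1
    positivity
  · rw [hq]
    exact term_le h hr hr' (i.1 + 1) (i.2 + 1)

/-- the drift is in `L^r` in time -/
theorem b2b : S_B2b := by
  intro R r hR hr hr'
  have hm := (b2a h R hR).2.1
  have hn := (b2a h R hR).2.2.2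
  have hfin : ∫⁻ t, ENNReal.ofReal (bt R t ^ r) < ⊤ := by
    have h1 : ∀ t, ENNReal.ofReal (bt R t ^ r) ≤ ∑' i : ℕ × ℕ,
        (II R (i.1 + 1) (i.2 + 1)).indicator
          (fun _ => ENNReal.ofReal ((2 * spd (i.1 + 1) (i.2 + 1)) ^ r)) t := by
      intro t
      by_cases h2 : ∃ k m : ℕ, 1 ≤ k ∧ 1 ≤ m ∧ t ∈ II R k m
      · obtain ⟨k, m, hk, hm, ht⟩ := h2
        refine le_trans (le_of_eq ?_) (ENNReal.le_tsum ((k - 1, m - 1) : ℕ × ℕ))
        show _ = (II R (k - 1 + 1) (m - 1 + 1)).indicator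
          (fun _ => ENNReal.ofReal ((2 * spd (k - 1 + 1) (m - 1 + 1)) ^ r)) t
        rw [Nat.sub_add_cancel hk, Nat.sub_add_cancel hm, indicator_of_mem ht, bt_eq h hR hk hm ht]
      · push Not at h2
        rw [bt_zero h2, Real.zero_rpow (by linarith), ENNReal.ofReal_zero]
        exact bot_le
    refine (lintegral_mono h1).trans_lt ?_
    rw [lintegral_tsum (fun i : ℕ × ℕ => (measurable_const.indicator
      (meas_II R (i.1 + 1) (i.2 + 1))).aemeasurable)]
    have h3 : ∀ i : ℕ × ℕ, ∫⁻ t, (II R (i.1 + 1) (i.2 + 1)).indicator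
        (fun _ => ENNReal.ofReal ((2 * spd (i.1 + 1) (i.2 + 1)) ^ r)) t =
        ENNReal.ofReal ((2 * spd (i.1 + 1) (i.2 + 1)) ^ r * (2 * tau (i.1 + 1) (i.2 + 1))) := by
      intro i
      have h4 := (h.2.1 (i.1 + 1) (i.2 + 1)).2.2.2.2.2.2
      rw [lintegral_indicator_const (meas_II _ _ _), vol_II, ← ENNReal.ofReal_mul (by positivity)]
    simp_rw [h3]
    exact lt_top_iff_ne_top.2 (summ_term h hr hr').tsum_ofReal_ne_top
  refine Integrable.integrableOn ⟨(hm.pow_const r).aestronglyMeasurable, ?_⟩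
  rw [hasFiniteIntegral_iff_ofReal (Eventually.of_forall fun t => Real.rpow_nonneg (hn t) r)]
  exact hfin

/-- the integral of the speed near the start of a block -/
theorem b2c : S_B2c := by
  intro R k K hR hk
  have hm := (b2a h R hR).2.1
  have hn := (b2a h R hR).2.2.2
  have hs := (h.2.1 k (K + 1)).1
  have hle : st R k ≤ st R k + sgk k (K + 1) := by linarith
  rw [intervalIntegral.integral_of_le hle,
    integral_eq_lintegral_of_nonneg_ae (Eventually.of_forall fun t => hn t)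
      hm.aestronglyMeasurable]
  refine ENNReal.toReal_le_of_le_ofReal (by positivity) ?_
  rw [← restrict_Ioo_eq_restrict_Ioc]
  have h1 : ∀ t ∈ Ioo (st R k) (st R k + sgk k (K + 1)), ENNReal.ofReal (bt R t) ≤
      ∑' m : ℕ, (II R k (K + 1 + m)).indicator
        (fun _ => ENNReal.ofReal (2 * spd k (K + 1 + m))) t := by
    intro t ht
    by_cases h2 : ∃ k m : ℕ, 1 ≤ k ∧ 1 ≤ m ∧ t ∈ II R k m
    · obtain ⟨k', m, hk', hm, ht'⟩ := h2
      obtain ⟨a1, a2⟩ := mem_blk h hm ht'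
      have a3 := sgk_anti h (k := k) (show 1 ≤ K + 1 by omega)
      have h3 : k' = k := blk_eq h hR a1 a2 ht.1.le (by linarith [ht.2])
      subst h3
      have h4 : K + 1 ≤ m := by
        by_contra h5
        have h6 := sgk_anti h (k := k') (show m + 1 ≤ K + 1 by omega)
        linarith [ht.2, ht'.1]
      obtain ⟨l, rfl⟩ : ∃ l, m = K + 1 + l := ⟨m - (K + 1), by omega⟩
      refine le_trans (le_of_eq ?_) (ENNReal.le_tsum l)
      rw [indicator_of_mem ht', bt_eq h hR hk' hm ht']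
    · push Not at h2
      rw [bt_zero h2, ENNReal.ofReal_zero]
      exact bot_le
  refine (setLIntegral_mono' measurableSet_Ioo h1).trans ?_
  refine (setLIntegral_le_lintegral _ _).trans ?_
  rw [lintegral_tsum (fun i : ℕ => (measurable_const.indicator
    (meas_II R k (K + 1 + i))).aemeasurable)]
  have h3 : ∀ i : ℕ, ∫⁻ t, (II R k (K + 1 + i)).indicator
      (fun _ => ENNReal.ofReal (2 * spd k (K + 1 + i))) t =
      ENNReal.ofReal (4 / 2 ^ (k + K + 1) * (1 / 2) ^ i) := by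
    intro i
    have h4 := (h.2.1 k (K + 1 + i)).2.2.2.2.2.2
    rw [lintegral_indicator_const (meas_II _ _ _), vol_II, ← ENNReal.ofReal_mul (by positivity),
      spd_tau h]
    congr 1
    rw [show k + (K + 1 + i) = k + K + 1 + i by ring, pow_add (2 : ℝ) (k + K + 1) i, one_div_pow]
    field_simp
  simp_rw [h3]
  rw [← ENNReal.ofReal_tsum_of_nonneg (fun i => by positivity)
    (summable_geometric_two.mul_left _), tsum_mul_left, tsum_geometric_two]
  refine ENNReal.ofReal_le_ofReal (le_of_eq ?_)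
  rw [pow_succ]
  field_simp

end

end Pool.Agent.Q13.AD
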