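import Pool.Agent.Q13.AD.B2a

/-!
# Advection-diffusion (project AD of helper61): the drift is periodic and divergence free (AD-29)
-/

set_option autoImplicit false

namespace Pool.Agent.Q13.AD

open Pool.Agent.Q61.AD Set MeasureTheory Filter Topology

lemma fb_cases (h : S_B0) {R : ℝ} (hR : 4 ≤ R) (t : ℝ) :
    (∃ (j : ℕ) (V : ℝ), 2 ≤ j ∧ 0 ≤ V ∧ ∀ x, fb R t x = vh j V x) ∨
    (∃ (j : ℕ) (V : ℝ), 2 ≤ j ∧ 0 ≤ V ∧ ∀ x, fb R t x = vv j V x) ∨ ∀ x, fb R t x = 0 := by
  by_cases h1 : ∃ k m : ℕ, 1 ≤ k ∧ 1 ≤ m ∧ t ∈ II R k m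
  · obtain ⟨k, m, hk, hm, ht⟩ := h1
    have hs : 0 < spd k m := (h.2.1 k m).2.2.2.2.2.2
    by_cases h2 : st R k + sgk k (m + 1) ≤ t ∧ t < st R k + sgk k (m + 1) + tau k m
    · left
      refine ⟨k + m, spd k m, by omega, hs.le, fun x => ?_⟩
      rw [fb_eq h hR hk hm ht]
      unfold pce
      rw [if_pos h2]
    · right; left
      refine ⟨k + m, 2 * spd k m, by omega, by positivity, fun x => ?_⟩
      have h3 : st R k + sgk k (m + 1) + tau k m ≤ t := by
        by_contra h3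
        exact h2 ⟨ht.1, not_le.1 h3⟩
      rw [fb_eq h hR hk hm ht]
      unfold pce
      rw [if_neg h2, if_pos ⟨h3, ht.2⟩]
  · push Not at h1
    right; right
    exact fun x => fb_zero h h1 x

lemma int_deriv_zero {g : ℝ → ℝ} (hg : ContDiff ℝ (⊤ : ℕ∞) g) (h01 : g 1 = g 0) (c : ℝ) :
    ∫ x in Ico (0 : ℝ) 1, c * deriv g x = 0 := by
  rw [integral_const_mul, integral_Ico_eq_integral_Ioc,
    ← intervalIntegral.integral_of_le zero_le_one]
  have h1 : Continuous (deriv g) := hg.continuous_deriv (by simp)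
  rw [intervalIntegral.integral_deriv_eq_sub (fun x _ => (hg.differentiable (by simp)) x)
    (h1.intervalIntegrable _ _), h01, sub_self, mul_zero]

lemma div_vh (j : ℕ) (V : ℝ) {ψ : P → ℝ} (hψ : ContDiff ℝ (⊤ : ℕ∞) ψ) (hp : Per ψ) :
    ∫ x in Q, ((vh j V x).1 * dx ψ x + (vh j V x).2 * dy ψ x) = 0 := by
  by_cases hI : IntegrableOn (fun x => (vh j V x).1 * dx ψ x + (vh j V x).2 * dy ψ x) Q
  · have hQ : (volume.restrict Q : Measure P) =
        (volume.restrict (Ico (0 : ℝ) 1)).prod (volume.restrict (Ico (0 : ℝ) 1)) := by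
      unfold Q
      rw [Measure.prod_restrict]
      rfl
    unfold IntegrableOn at hI
    rw [hQ] at hI ⊢
    rw [integral_prod_symm _ hI]
    refine integral_eq_zero_of_ae (Eventually.of_forall fun y => ?_)
    have h1 := int_deriv_zero (g := fun s => ψ (s, y)) (hψ.comp (by fun_prop))
      (by simpa using (hp 0 y).1) (V * chi ⌊2 ^ j * y⌋)
    show ∫ x in Ico (0 : ℝ) 1, (V * chi ⌊2 ^ j * y⌋ * deriv (fun s => ψ (s, y)) x +
      0 * dy ψ (x, y)) = 0
    simpa using h1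
  · exact integral_undef hI

lemma div_vv (j : ℕ) (V : ℝ) {ψ : P → ℝ} (hψ : ContDiff ℝ (⊤ : ℕ∞) ψ) (hp : Per ψ) :
    ∫ x in Q, ((vv j V x).1 * dx ψ x + (vv j V x).2 * dy ψ x) = 0 := by
  by_cases hI : IntegrableOn (fun x => (vv j V x).1 * dx ψ x + (vv j V x).2 * dy ψ x) Q
  · have hQ : (volume.restrict Q : Measure P) =
        (volume.restrict (Ico (0 : ℝ) 1)).prod (volume.restrict (Ico (0 : ℝ) 1)) := by
      unfold Q
      rw [Measure.prod_restrict]
      rfl
    unfold IntegrableOn at hI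
    rw [hQ] at hI ⊢
    rw [integral_prod _ hI]
    refine integral_eq_zero_of_ae (Eventually.of_forall fun y => ?_)
    have h1 := int_deriv_zero (g := fun s => ψ (y, s)) (hψ.comp (by fun_prop))
      (by simpa using (hp y 0).2) (V * chi ⌊2 ^ j * y⌋)
    show ∫ x in Ico (0 : ℝ) 1, (0 * dx ψ (y, x) +
      V * chi ⌊2 ^ j * y⌋ * deriv (fun s => ψ (y, s)) x) = 0
    simpa using h1
  · exact integral_undef hI

/-- the drift is periodic and divergence free -/
theorem b3 (h : S_B0) (hsh : S_SH) : S_B3 := by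
  intro R hR
  refine ⟨fun t => ?_, fun t ψ hψ hp => ?_⟩
  · rcases fb_cases h hR t with ⟨j, V, hj, hV, h1⟩ | ⟨j, V, hj, hV, h1⟩ | h1
    · rw [show fb R t = vh j V from funext h1]
      exact (hsh j V hj hV).1.per
    · rw [show fb R t = vv j V from funext h1]
      exact (hsh j V hj hV).2.1.per
    · intro x y
      rw [h1, h1, h1]
      exact ⟨rfl, rfl⟩
  · rcases fb_cases h hR t with ⟨j, V, hj, hV, h1⟩ | ⟨j, V, hj, hV, h1⟩ | h1
    · simp only [h1]
      exact div_vh j V hψ hp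
    · simp only [h1]
      exact div_vv j V hψ hp
    · simp only [h1]
      simp

end Pool.Agent.Q13.AD
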